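import Pool.Agent.TH710.PHP.Final

/-!
Frege systems with symmetric gates of unbounded fan-in.
-/

set_option autoImplicit false
set_option linter.unusedSectionVars false

namespace Pool.Agent.TH677.SG

open Finset Pool.Agent.TH710.PHP

/-- Formulas over the variables `α` with negation, conjunction and disjunction of any finite number
of formulas, and symmetric gates: `cnt S t φs` says that the number `x` of true formulas among
`φs 0, …, φs (t - 1)` satisfies `S x = true`.  For `S x = (x % q = i)` this is the connective
`MOD_(q,i)`, for `S x = (k ≤ x)` a threshold connective. -/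
inductive CF (α : Type) : Type
  | var (a : α) : CF α
  | neg (φ : CF α) : CF α
  | and (t : ℕ) (φs : Fin t → CF α) : CF α
  | or (t : ℕ) (φs : Fin t → CF α) : CF α
  | cnt (S : ℕ → Bool) (t : ℕ) (φs : Fin t → CF α) : CF α

variable {α : Type}

/-- The size of a formula: its number of symbols. -/
def CF.size : CF α → ℕ
  | .var _ => 1
  | .neg φ => φ.size + 1
  | .and _ φs => (∑ j, (φs j).size) + 1
  | .or _ φs => (∑ j, (φs j).size) + 1
  | .cnt _ _ φs => (∑ j, (φs j).size) + 1

/-- The number of alternations of `∨`, `∧` and symmetric gates on a path, negations being pushed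
to the variables or symmetric gates; an additional disjunction (`s = true`) or conjunction
(`s = false`) above the formula is not counted. Every symmetric gate counts. -/
def CF.alt : Bool → CF α → ℕ
  | _, .var _ => 0
  | s, .neg φ => φ.alt (!s)
  | true, .and _ φs => univ.sup (fun j => (φs j).alt false) + 1
  | false, .and _ φs => univ.sup (fun j => (φs j).alt false)
  | true, .or _ φs => univ.sup (fun j => (φs j).alt true)
  | false, .or _ φs => univ.sup (fun j => (φs j).alt true) + 1
  | _, .cnt _ _ φs => univ.sup (fun j => max ((φs j).alt true) ((φs j).alt false)) + 1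

/-- The depth of a formula. -/
def CF.depth (φ : CF α) : ℕ := max (φ.alt true) (φ.alt false)

open Classical in
/-- The set of all subformulas. -/
noncomputable def CF.sub : CF α → Finset (CF α)
  | .var a => {.var a}
  | .neg φ => insert (.neg φ) φ.sub
  | .and t φs => insert (.and t φs) (univ.biUnion (fun j => (φs j).sub))
  | .or t φs => insert (.or t φs) (univ.biUnion (fun j => (φs j).sub))
  | .cnt S t φs => insert (.cnt S t φs) (univ.biUnion (fun j => (φs j).sub))

/-- `V` assigns truth values to all formulas; it respects the outermost connective of the given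
formula, if this is `¬`, `∧` or `∨`. (Nothing is required for symmetric gates; they are governed
by the counting axioms.) -/
def RespAt (V : CF α → Bool) : CF α → Prop
  | .var _ => True
  | .neg φ => V (.neg φ) = !(V φ)
  | .and t φs => V (.and t φs) = true ↔ ∀ j, V (φs j) = true
  | .or t φs => V (.or t φs) = true ↔ ∃ j, V (φs j) = true
  | .cnt _ _ _ => True

open Classical in
/-- All subformulas of the lines. -/
noncomputable def allSub {T : ℕ} (L : Fin T → CF α) : Finset (CF α) :=
  univ.biUnion (fun i => (L i).sub)

/-- `c`-local inference of line `i` under the hypothesis `H`. -/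
def Local (c : ℕ) {T : ℕ} (L : Fin T → CF α) (i : Fin T) (H : (CF α → Bool) → Prop) : Prop :=
  ∃ (P : Finset (Fin T)) (Q : Finset (CF α)), P.card ≤ c ∧ Q.card ≤ c ∧ (∀ j ∈ P, j < i) ∧
    Q ⊆ allSub L ∧
    ∀ V : CF α → Bool, (∀ χ ∈ Q, RespAt V χ) → (∀ j ∈ P, V (L j) = true) → H V →
      V (L i) = true

/-- Line `i` follows by a sound rule for `¬`, `∧`, `∨`: by a `c`-local inference (this includes
every instance of a sound rule scheme with at most `c` premises and at most `c` subformulas in its
scheme), or by a case distinction for a conjunction or disjunction of any number of formulas. -/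
def Inferred (c : ℕ) {T : ℕ} (L : Fin T → CF α) (i : Fin T) : Prop :=
  Local c L i (fun _ => True) ∨
  (∃ (t : ℕ) (φs : Fin t → CF α), CF.and t φs ∈ allSub L ∧
    Local c L i (fun V => V (.and t φs) = true) ∧
    ∀ j, Local c L i (fun V => V (φs j) = false)) ∨
  (∃ (t : ℕ) (φs : Fin t → CF α), CF.or t φs ∈ allSub L ∧
    Local c L i (fun V => V (.or t φs) = false) ∧
    ∀ j, Local c L i (fun V => V (φs j) = true))

/-- `φ` is (a weakening of) a clause of the pigeonhole principle with `m` pigeons and `n` holes. -/
def IsClause {m n : ℕ} (φ : CF (Fin m × Fin n)) : Prop :=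
  ∃ (t : ℕ) (φs : Fin t → CF (Fin m × Fin n)), φ = .or t φs ∧
    ((∃ i : Fin m, ∀ j : Fin n, ∃ l, φs l = .var (i, j)) ∨
      (∃ (i i' : Fin m) (j : Fin n), i ≠ i' ∧
        (∃ l, φs l = .neg (.var (i, j))) ∧ ∃ l, φs l = .neg (.var (i', j))))

/-- `φ` or its negation -/
def lit (b : Bool) (φ : CF α) : CF α := if b = true then φ else .neg φ

/-- A marking marks, in every finite list of formulas, some of the positions. -/
abbrev Marking (α : Type) : Type := ∀ t : ℕ, (Fin t → CF α) → Finset (Fin t)

/-- the multiset of the marked formulas of the list `Γ` -/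
def marked (K : Marking α) {t : ℕ} (Γ : Fin t → CF α) : Multiset (CF α) := (K t Γ).val.map Γ

/-- The usual defining axioms of the symmetric gates, as (weakenings of) clauses:
* `φ = b → (cnt S (Γ, φ) ↔ cnt S' Γ)`, where `S' = S` if `b` is false and `S' x = S (x + 1)` if `b`
  is true, and where `(Γ, φ)` may be arranged in any order;
* `cnt S Γ → cnt S Γ'` for a permutation `Γ'` of `Γ`;
* `cnt S ∅ ↔ S 0`.
It is compatible with the marking `K` if the marked formulas of `(Γ, φ)` are the marked formulas of
`Γ` and `φ`, and those of the permutation `Γ'` are those of `Γ`. -/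
def IsCounting (K : Marking α) (ψ : CF α) : Prop :=
  ∃ (t : ℕ) (φs : Fin t → CF α), ψ = .or t φs ∧
    ((∃ (b v : Bool) (S : ℕ → Bool) (φ : CF α) (s : ℕ) (Γ : Fin s → CF α)
        (Γ' : Fin (s + 1) → CF α),
        (List.ofFn Γ').Perm (φ :: List.ofFn Γ) ∧ marked K Γ' = φ ::ₘ marked K Γ ∧
        (∃ l, φs l = lit (!b) φ) ∧
        (∃ l, φs l = lit (!v) (.cnt (fun x => if b = true then S (x + 1) else S x) s Γ)) ∧
        ∃ l, φs l = lit v (.cnt S (s + 1) Γ')) ∨
      (∃ (S : ℕ → Bool) (s : ℕ) (Γ Γ' : Fin s → CF α),
        (List.ofFn Γ').Perm (List.ofFn Γ) ∧ marked K Γ' = marked K Γ ∧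
        (∃ l, φs l = .neg (.cnt S s Γ)) ∧ ∃ l, φs l = .cnt S s Γ') ∨
      (∃ (S : ℕ → Bool) (Γ : Fin 0 → CF α), ∃ l, φs l = lit (S 0) (.cnt S 0 Γ)))

/-- A depth-`d` refutation of the pigeonhole principle with `m` pigeons and `n` holes with symmetric
gates, whose counting axioms are compatible with the marking `K`. -/
structure Refutation (c d m n : ℕ) (K : Marking (Fin m × Fin n)) where
  len : ℕ
  line : Fin len → CF (Fin m × Fin n)
  depth : ∀ i, (line i).depth ≤ d
  sound : ∀ i, IsClause (line i) ∨ IsCounting K (line i) ∨ Inferred c line i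
  contra : ∃ i f, line i = .or 0 f

/-- The size of a refutation: the total number of symbols of its lines. -/
def Refutation.size {c d m n : ℕ} {K : Marking (Fin m × Fin n)} (R : Refutation c d m n K) : ℕ :=
  ∑ i, (R.line i).size

end Pool.Agent.TH677.SG
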