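import Pool.Agent.TH677.SG.Main

/-!
Few symmetric gates.
-/

set_option autoImplicit false
set_option linter.unusedSectionVars false

namespace Pool.Agent.TH677.SG

open Finset Pool.Agent.TH710.PHP Relation

section comb

variable {β : Type}

lemma exists_positions {t : ℕ} (Γ : Fin t → β) (M : Multiset β)
    (h : M ≤ (univ : Finset (Fin t)).val.map Γ) : ∃ J : Finset (Fin t), J.val.map Γ = M := by
  classical
  obtain ⟨l1, rfl⟩ := Quot.exists_rep M
  have e : (univ : Finset (Fin t)).val.map Γ = ((List.finRange t).map Γ : List β) := rfl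
  rw [e] at h
  have h' : l1.Subperm ((List.finRange t).map Γ) := Multiset.coe_le.mp h
  obtain ⟨l, hl1, hl2⟩ := h'
  obtain ⟨l', hl', rfl⟩ := List.sublist_map_iff.mp hl2
  have hnd : l'.Nodup := hl'.nodup (List.nodup_finRange t)
  refine ⟨⟨(l' : Multiset (Fin t)), hnd⟩, ?_⟩
  show ((l'.map Γ : List β) : Multiset β) = (l1 : Multiset β)
  exact Quot.sound hl1

/-- Two members of `𝒢` are linked if one of them is obtained from the other by adding one
element. -/
def Link (𝒢 : Finset (Multiset β)) (M M' : Multiset β) : Prop :=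
  M ∈ 𝒢 ∧ M' ∈ 𝒢 ∧ ((∃ a, M' = a ::ₘ M) ∨ ∃ a, M = a ::ₘ M')

lemma Link.symm {𝒢 : Finset (Multiset β)} {M M' : Multiset β} (h : Link 𝒢 M M') :
    Link 𝒢 M' M := ⟨h.2.1, h.1, h.2.2.symm⟩

open Classical in
/-- The component of `M` in `𝒢`: all members of `𝒢` which can be reached from `M` by a chain of
linked members of `𝒢`. -/
noncomputable def comp (𝒢 : Finset (Multiset β)) (M : Multiset β) : Finset (Multiset β) :=
  𝒢.filter (fun x => ReflTransGen (Link 𝒢) M x)

lemma self_comp {𝒢 : Finset (Multiset β)} {M : Multiset β} (h : M ∈ 𝒢) : M ∈ comp 𝒢 M := by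
  classical
  rw [comp, mem_filter]
  exact ⟨h, ReflTransGen.refl⟩

lemma comp_eq {𝒢 : Finset (Multiset β)} {M M' : Multiset β} (h : Link 𝒢 M M') :
    comp 𝒢 M' = comp 𝒢 M := by
  classical
  rw [comp, comp]
  refine Finset.filter_congr (fun x _ => ?_)
  exact ⟨fun h1 => ReflTransGen.head h h1, fun h1 => ReflTransGen.head h.symm h1⟩

lemma exit {𝒢 : Finset (Multiset β)} {Y : Finset (Multiset β)} {M x : Multiset β}
    (h : ReflTransGen (Link 𝒢) M x) (hM : M ∈ Y) (hx : x ∉ Y) :
    ∃ y ∈ Y, ∃ z, z ∉ Y ∧ Link 𝒢 y z ∧ ReflTransGen (Link 𝒢) M z := by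
  induction h with
  | refl => exact absurd hM hx
  | tail hab hbc ih =>
    rename_i b c
    by_cases hb : b ∈ Y
    · exact ⟨b, hb, c, hx, hbc, hab.tail hbc⟩
    · exact ih hb

lemma grow (𝒢 : Finset (Multiset β)) {M : Multiset β} (hM : M ∈ 𝒢) :
    ∃ B : Multiset β, (∀ x ∈ comp 𝒢 M, B ≤ x) ∧
      Multiset.card M + 1 ≤ Multiset.card B + (comp 𝒢 M).card := by
  classical
  set 𝒴 := (comp 𝒢 M).powerset.filter (fun Y => M ∈ Y ∧ ∃ B : Multiset β, (∀ x ∈ Y, B ≤ x) ∧
      Multiset.card M + 1 ≤ Multiset.card B + Y.card) with h𝒴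
  have hne : 𝒴.Nonempty := by
    refine ⟨{M}, ?_⟩
    rw [h𝒴, mem_filter, mem_powerset]
    refine ⟨by simpa using self_comp hM, mem_singleton_self _, M, ?_, ?_⟩
    · intro x hx
      rw [mem_singleton] at hx
      rw [hx]
    · simp
  obtain ⟨Y, hY, hmax⟩ := Finset.exists_max_image 𝒴 (fun Y => Y.card) hne
  rw [h𝒴, mem_filter, mem_powerset] at hY
  obtain ⟨hYc, hMY, B, hB, hcard⟩ := hY
  by_cases hall : comp 𝒢 M ⊆ Y
  · have : Y = comp 𝒢 M := hYc.antisymm hall
    rw [← this]
    exact ⟨B, hB, hcard⟩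
  exfalso
  obtain ⟨x, hx, hxY⟩ := Finset.not_subset.mp hall
  rw [comp, mem_filter] at hx
  obtain ⟨y, hy, z, hz, hyz, hMz⟩ := exit hx.2 hMY hxY
  have hcz : (insert z Y).card = Y.card + 1 := card_insert_of_notMem hz
  have key : ∀ B' : Multiset β, (∀ x ∈ Y, B' ≤ x) → B' ≤ z →
      Multiset.card B ≤ Multiset.card B' + 1 → False := by
    intro B' h1 h2 h3
    have hmem : insert z Y ∈ 𝒴 := by
      rw [h𝒴, mem_filter, mem_powerset]
      refine ⟨?_, mem_insert_of_mem hMY, B', ?_, ?_⟩
      · intro u hu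
        rw [mem_insert] at hu
        rcases hu with rfl | hu
        · rw [comp, mem_filter]; exact ⟨hyz.2.1, hMz⟩
        · exact hYc hu
      · intro u hu
        rw [mem_insert] at hu
        rcases hu with rfl | hu
        · exact h2
        · exact h1 u hu
      · omega
    have := hmax _ hmem
    omega
  rcases hyz.2.2 with ⟨a, ha⟩ | ⟨a, ha⟩
  · exact key B hB ((hB y hy).trans (by rw [ha]; exact Multiset.le_cons_self _ _)) (by omega)
  · refine key (B.erase a) (fun x hx => (Multiset.erase_le a B).trans (hB x hx)) ?_ ?_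
    · rw [Multiset.erase_le_iff_le_cons, ← ha]
      exact hB y hy
    · by_cases haB : a ∈ B
      · have := Multiset.card_erase_add_one haB
        omega
      · rw [Multiset.erase_of_notMem haB]
        omega

open Classical in
/-- the common part of the multisets in the component of `M` -/
noncomputable def base (𝒢 : Finset (Multiset β)) (M : Multiset β) : Multiset β :=
  if h : M ∈ 𝒢 then (comp 𝒢 M).inf' ⟨M, self_comp h⟩ id else M

lemma base_le (𝒢 : Finset (Multiset β)) (M : Multiset β) : base 𝒢 M ≤ M := by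
  classical
  unfold base
  split_ifs with h
  · exact Finset.inf'_le id (self_comp h)
  · exact le_rfl

lemma base_eq {𝒢 : Finset (Multiset β)} {M M' : Multiset β} (h : Link 𝒢 M M') :
    base 𝒢 M' = base 𝒢 M := by
  classical
  unfold base
  rw [dif_pos h.1, dif_pos h.2.1]
  exact Finset.inf'_congr _ (comp_eq h) (fun _ _ => rfl)

open Classical in
lemma base_card (𝒢 : Finset (Multiset β)) (M : Multiset β) {w : ℕ}
    (h𝒢 : ∀ M ∈ 𝒢, (comp 𝒢 M).card ≤ w + 1) :
    Multiset.card (M - base 𝒢 M) ≤ w := by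
  rw [Multiset.card_sub (base_le 𝒢 M)]
  by_cases h : M ∈ 𝒢
  · obtain ⟨B, hB, hc⟩ := grow 𝒢 h
    have h1 : B ≤ base 𝒢 M := by
      unfold base
      rw [dif_pos h]
      exact Finset.le_inf' _ _ hB
    have h2 := Multiset.card_le_card h1
    have h3 := h𝒢 M h
    omega
  · unfold base
    rw [dif_neg h]
    omega

end comb

section few

variable {α : Type}

/-- marking everything: with this marking, the condition on the marked formulas in a counting axiom
says the same as the condition on all arguments -/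
def markAll (α : Type) : Marking α := fun _ _ => univ

open Classical in
/-- the multiset of the arguments of a symmetric gate, as a set with one element -/
noncomputable def argsOf : CF α → Finset (Multiset (CF α))
  | .cnt _ _ Γ => {univ.val.map Γ}
  | _ => ∅

open Classical in
/-- The multisets of the arguments of the symmetric gates which occur in the lines. -/
noncomputable def gates {T : ℕ} (L : Fin T → CF α) : Finset (Multiset (CF α)) :=
  (allSub L).biUnion argsOf

lemma mem_gates {T : ℕ} {L : Fin T → CF α} {S : ℕ → Bool} {t : ℕ} {Γ : Fin t → CF α}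
    (h : CF.cnt S t Γ ∈ allSub L) : marked (markAll α) Γ ∈ gates L := by
  classical
  rw [gates, mem_biUnion]
  exact ⟨_, h, mem_singleton_self _⟩

open Classical in
/-- marking the arguments outside the common part -/
noncomputable def outside (𝒢 : Finset (Multiset (CF α))) : Marking α := fun _ Γ =>
  (exists_positions Γ ((univ.val.map Γ) - base 𝒢 (univ.val.map Γ))
    (Multiset.sub_le_self _ _)).choose

open Classical in
lemma outside_marked (𝒢 : Finset (Multiset (CF α))) {t : ℕ} (Γ : Fin t → CF α) :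
    marked (outside 𝒢) Γ = marked (markAll α) Γ - base 𝒢 (marked (markAll α) Γ) :=
  (exists_positions Γ ((univ.val.map Γ) - base 𝒢 (univ.val.map Γ))
    (Multiset.sub_le_self _ _)).choose_spec

lemma outside_card {𝒢 : Finset (Multiset (CF α))} {w : ℕ}
    (h𝒢 : ∀ M ∈ 𝒢, (comp 𝒢 M).card ≤ w + 1) (t : ℕ) (Γ : Fin t → CF α) : (outside 𝒢 t Γ).card ≤ w := by
  classical
  have h1 := outside_marked 𝒢 Γ
  have h2 : Multiset.card (marked (outside 𝒢) Γ) = (outside 𝒢 t Γ).card := by
    rw [marked, Multiset.card_map]; rfl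
  rw [← h2, h1]
  exact base_card 𝒢 _ h𝒢

lemma mem_all {T : ℕ} {L : Fin T → CF α} {i : Fin T} {χ : CF α} (h : χ ∈ (L i).sub) :
    χ ∈ allSub L := by
  classical
  rw [allSub, mem_biUnion]
  exact ⟨i, mem_univ _, h⟩

/-- counting axioms are compatible with the marking of the arguments outside the common part -/
lemma counting_outside {T : ℕ} {L : Fin T → CF α} {i : Fin T} (h : IsCounting (markAll α) (L i)) :
    IsCounting (outside (gates L)) (L i) := by
  classical
  obtain ⟨t, φs, hL, hcase⟩ := h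
  have hsub : ∀ (l : Fin t) (v : Bool) (χ : CF α), φs l = lit v χ → χ ∈ allSub L := by
    intro l v χ hl
    refine mem_all (i := i) ?_
    rw [hL]
    exact sub_or l (by rw [hl]; exact sub_lit (cself _))
  refine ⟨t, φs, hL, ?_⟩
  rcases hcase with ⟨b, v, S, φ, s, Γ, Γ', hp, hm, h1, ⟨l2, e2⟩, l3, e3⟩ |
    ⟨S, s, Γ, Γ', hp, hm, ⟨l2, e2⟩, l3, e3⟩ | ⟨S, Γ, l, e⟩
  · left
    refine ⟨b, v, S, φ, s, Γ, Γ', hp, ?_, h1, ⟨l2, e2⟩, l3, e3⟩
    have m2 := mem_gates (hsub l2 _ _ e2)
    have m3 := mem_gates (hsub l3 _ _ e3)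
    have hlink : Link (gates L) (marked (markAll α) Γ) (marked (markAll α) Γ') :=
      ⟨m2, m3, Or.inl ⟨φ, hm⟩⟩
    rw [outside_marked, outside_marked, base_eq hlink, hm]
    exact Multiset.cons_sub_of_le _ (base_le _ _)
  · right; left
    refine ⟨S, s, Γ, Γ', hp, ?_, ⟨l2, e2⟩, l3, e3⟩
    rw [outside_marked, outside_marked, hm]
  · right; right
    exact ⟨S, Γ, l, e⟩

/-- the same refutation with the new marking -/
noncomputable def Refutation.remark {c d m n : ℕ} (R : Refutation c d m n (markAll _)) :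
    Refutation c d m n (outside (gates R.line)) where
  len := R.len
  line := R.line
  depth := R.depth
  sound := fun i => by
    rcases R.sound i with h | h | h
    · exact Or.inl h
    · exact Or.inr (Or.inl (counting_outside h))
    · exact Or.inr (Or.inr h)
  contra := R.contra

end few

end Pool.Agent.TH677.SG
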