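import Pool.Agent.TH677.SG.Trans

/-!
Values of symmetric gates at small matchings.
-/

set_option autoImplicit false
set_option linter.unusedSectionVars false

namespace Pool.Agent.TH677.SG

open Finset Pool.Agent.TH710.PHP

variable {α : Type} {n k d : ℕ} {ρ : PS n} {g : α → MF n} {𝒰 : Finset (Fm α)}

/-- forced -/
abbrev F (g : α → MF n) (k : ℕ) (b : Bool) (y : PS n) (φ : Fm α) : Prop := W k (mf g φ) b y

/-- deciding one formula -/
lemma decide_one (hG : Good g k d ρ 𝒰) {φ : Fm α} (hφ : φ ∈ 𝒰) {σ : PS n} (hσ : IsPP σ)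
    (hρ : ρ ⊆ σ) (hr : σ.card + k ≤ n) :
    ∃ y, σ ⊆ y ∧ IsPP y ∧ y.card ≤ σ.card + k ∧ (F g k true y φ ∨ F g k false y φ) := by
  obtain ⟨y, h1, h2, h3, τ, h4⟩ := exists_dec (g := g) (k := k) (ρ := ρ) φ σ hσ hr
  obtain ⟨a1, a2, a3, a4⟩ := tr_rep (hG.tree _ hφ) y h2 (hρ.trans h1) τ h4
  refine ⟨y, h1, h2, h3, ?_⟩
  rcases a4 with h | h
  · exact Or.inl (W_mono _ h a2 h2)
  · exact Or.inr (W_mono _ h a2 h2)

/-- deciding several formulas -/
lemma decide_all (hG : Good g k d ρ 𝒰) (M : Multiset (Fm α)) (hM : ∀ φ ∈ M, φ ∈ 𝒰) {σ : PS n}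
    (hσ : IsPP σ) (hρ : ρ ⊆ σ) (hr : σ.card + Multiset.card M * k ≤ n) :
    ∃ y, σ ⊆ y ∧ IsPP y ∧ y.card ≤ σ.card + Multiset.card M * k ∧
      ∀ φ ∈ M, F g k true y φ ∨ F g k false y φ := by
  induction M using Multiset.induction_on with
  | empty => exact ⟨σ, subset_rfl, hσ, by simp, by simp⟩
  | cons a M ih =>
    rw [Multiset.card_cons, Nat.add_mul, one_mul] at hr ⊢
    obtain ⟨y, h1, h2, h3, h4⟩ := ih (fun φ hφ => hM φ (Multiset.mem_cons_of_mem hφ)) (by omega)
    obtain ⟨z, g1, g2, g3, g4⟩ := decide_one hG (hM a (Multiset.mem_cons_self _ _)) h2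
      (hρ.trans h1) (by omega)
    refine ⟨z, h1.trans g1, g2, by omega, ?_⟩
    intro φ hφ
    rw [Multiset.mem_cons] at hφ
    rcases hφ with rfl | hφ
    · exact g4
    · rcases h4 φ hφ with h | h
      · exact Or.inl (W_mono _ h g1 g2)
      · exact Or.inr (W_mono _ h g1 g2)

lemma F_cons (hG : Good g k d ρ 𝒰) {φ : Fm α} (hφ : φ ∈ 𝒰) {y : PS n} (hy : IsPP y)
    (hr : y.card + k * d ≤ n) (h1 : F g k true y φ) (h2 : F g k false y φ) : False := by
  have := Nat.mul_le_mul_left k (hG.dep φ hφ)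
  exact W_cons (mf g φ) hy (by omega) h1 h2

lemma F_neg {φ : Fm α} {b : Bool} {y : PS n} : F g k b y (.neg φ) ↔ F g k (!b) y φ := Iff.rfl

lemma mem_of_sub {φ ψ : Fm α} (h𝒰 : ∀ ψ ∈ 𝒰, ∀ χ ∈ ψ.sub, χ ∈ 𝒰) (hψ : ψ ∈ 𝒰) (h : φ ∈ ψ.sub) :
    φ ∈ 𝒰 := h𝒰 ψ hψ φ h

/-- the value of a gate is determined by the values of the marked arguments -/
lemma gate_val (hG : Good g k d ρ 𝒰) (h𝒰 : ∀ ψ ∈ 𝒰, ∀ χ ∈ ψ.sub, χ ∈ 𝒰) {S : ℕ → Bool} {t : ℕ}
    {J : Finset (Fin t)} {f : Fin t → Fm α} (hmem : orL (gl S J f) ∈ 𝒰) {y0 y : PS n} (h0 : y0 ⊆ y)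
    (hy : IsPP y) (hρ : ρ ⊆ y) (hr : y.card + 2 * k + k * d ≤ n)
    (hdec : ∀ j ∈ J, F g k true y0 (f j) ∨ F g k false y0 (f j))
    (A : Finset (Fin t)) (hA : ∀ j, j ∈ A ↔ j ∈ J ∧ F g k true y0 (f j)) :
    ∃ z, y ⊆ z ∧ IsPP z ∧ z.card ≤ y.card + k ∧ F g k (S A.card) z (orL (gl S J f)) := by
  classical
  have hAJ : A ⊆ J := fun j hj => ((hA j).mp hj).1
  have hf : ∀ j, f j ∈ 𝒰 := fun j => h𝒰 _ hmem _ (sub_gate j (self_mem_sub _))
  have hfalse : ∀ j ∈ J, j ∉ A → F g k false y0 (f j) := by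
    intro j hj hjA
    rcases hdec j hj with h | h
    · exact absurd ((hA j).mpr ⟨hj, h⟩) hjA
    · exact h
  cases hS : S A.card with
  | true =>
    have hmemT : term J A f ∈ gl S J f := by
      rw [gl, List.mem_append, List.mem_map]
      left
      exact ⟨A, by rw [Finset.mem_toList, mem_filter, mem_powerset]; exact ⟨hAJ, hS⟩, rfl⟩
    obtain ⟨z, h1, h2, h3, h4⟩ := decide_one hG
      (h𝒰 _ hmem _ (sub_orL hmemT (self_mem_sub _))) hy hρ (by omega)
    refine ⟨z, h1, h2, h3, ?_⟩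
    have h5 : F g k true z (term J A f) := by
      rcases h4 with h | h
      · exact h
      · exfalso
        change W k (mf g (.and t _)) false z at h
        rw [W_mf_and_false] at h
        obtain ⟨j, hj⟩ := h
        split_ifs at hj with c1 c2
        · exact F_cons hG (hf j) h2 (by omega) (W_mono _ ((hA j).mp c2).2 (h0.trans h1) h2) hj
        · have h6 : F g k true z (f j) := hj
          exact F_cons hG (hf j) h2 (by omega) h6 (W_mono _ (hfalse j c1 c2) (h0.trans h1) h2)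
        · change W k (mf g (.and 0 _)) false z at hj
          rw [W_mf_and_false] at hj
          obtain ⟨i, _⟩ := hj
          exact i.elim0
    obtain ⟨i, hi⟩ := List.get_of_mem hmemT
    change W k (mf g (.or _ _)) true z
    rw [W_mf_or_true]
    exact ⟨i, by rw [hi]; exact h5⟩
  | false =>
    obtain ⟨z, h1, h2, h3, h4⟩ := decide_one hG hmem hy hρ (by omega)
    refine ⟨z, h1, h2, h3, ?_⟩
    rcases h4 with h | h
    swap
    · exact h
    exfalso
    change W k (mf g (.or _ _)) true z at h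
    rw [W_mf_or_true] at h
    obtain ⟨i, hi⟩ := h
    have hmi := List.get_mem (gl S J f) i
    have hmU := h𝒰 _ hmem _ (sub_orL hmi (self_mem_sub _))
    generalize (gl S J f).get i = ψ at hi hmi hmU
    have hdepU := Nat.mul_le_mul_left k (hG.dep ψ hmU)
    rw [gl, List.mem_append, List.mem_map, List.mem_map] at hmi
    rcases hmi with ⟨B, hB, rfl⟩ | ⟨j, _, rfl⟩
    · rw [Finset.mem_toList, mem_filter, mem_powerset] at hB
      have hne : B ≠ A := by
        rintro rfl
        rw [hS] at hB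
        exact Bool.noConfusion hB.2
      obtain ⟨j, hj⟩ : ∃ j, ¬ (j ∈ B ↔ j ∈ A) := by
        by_contra hcon
        push Not at hcon
        exact hne (Finset.ext hcon)
      have hjJ : j ∈ J := by
        by_cases hjB : j ∈ B
        · exact hB.1 hjB
        · have hjA : j ∈ A := by
            by_contra hjA
            exact hj ⟨fun h => absurd h hjB, fun h => absurd h hjA⟩
          exact hAJ hjA
      change W k (mf g (.and t _)) true z at hi
      have h6 := W_mf_and_true.mp hi z h2 subset_rfl (by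
        change z.card + k * (mf g (term J B f)).dep ≤ n
        omega) j
      apply h6
      rw [if_pos hjJ]
      by_cases hjB : j ∈ B
      · rw [if_pos hjB]
        have hjA : j ∉ A := fun h => hj ⟨fun _ => h, fun _ => hjB⟩
        exact W_mono _ (hfalse j hjJ hjA) (h0.trans h1) h2
      · rw [if_neg hjB]
        have hjA : j ∈ A := by
          by_contra hjA
          exact hj ⟨fun h => absurd h hjB, fun h => absurd h hjA⟩
        exact W_mono _ ((hA j).mp hjA).2 (h0.trans h1) h2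
    · obtain ⟨z', q1, q2, q3, q4⟩ := decide_one hG (hf j) h2 (hρ.trans h1) (by omega)
      change W k (mf g (.and 2 _)) true z at hi
      have hroom : z'.card + k * (mf g (bad (f j))).dep ≤ n := by omega
      have h6 := W_mf_and_true.mp hi z' q2 q1 hroom
      rcases q4 with h | h
      · exact h6 1 h
      · exact h6 0 h

end Pool.Agent.TH677.SG
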