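import Pool.Agent.TH677.SG.Gate

/-!
Counting axioms are never false at small matchings; the lower bound.
-/

set_option autoImplicit false
set_option linter.unusedSectionVars false

namespace Pool.Agent.TH677.SG

open Finset Pool.Agent.TH710.PHP

section

variable {α : Type} {n k d : ℕ} {ρ : PS n} {g : α → MF n} {𝒰 : Finset (Fm α)} {K : Marking α}

lemma F_lit {v : Bool} {χ : CF α} {y : PS n} :
    F g k true y (ct K (lit v χ)) ↔ F g k v y (ct K χ) := by
  cases v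
  · rw [lit, if_neg (by simp), ct, F_neg, Bool.not_true]
  · rw [lit, if_pos rfl]

lemma sub_lit {v : Bool} {χ χ' : CF α} (h : χ' ∈ χ.sub) : χ' ∈ (lit v χ).sub := by
  classical
  cases v
  · rw [lit, if_neg (by simp), CF.sub, mem_insert]
    exact Or.inr h
  · rw [lit, if_pos rfl]
    exact h

lemma cself (φ : CF α) : φ ∈ φ.sub := by
  classical
  cases φ <;> simp [CF.sub]

lemma sub_or {t : ℕ} {φs : Fin t → CF α} {χ : CF α} (l : Fin t) (h : χ ∈ (φs l).sub) :
    χ ∈ (CF.or t φs).sub := by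
  classical
  rw [CF.sub, mem_insert, mem_biUnion]
  exact Or.inr ⟨l, mem_univ _, h⟩

lemma sub_cnt {S : ℕ → Bool} {t : ℕ} {φs : Fin t → CF α} {χ : CF α} (l : Fin t)
    (h : χ ∈ (φs l).sub) : χ ∈ (CF.cnt S t φs).sub := by
  classical
  rw [CF.sub, mem_insert, mem_biUnion]
  exact Or.inr ⟨l, mem_univ _, h⟩

open Classical in
/-- true marked positions -/
noncomputable def tset (K : Marking α) (g : α → MF n) (k : ℕ) (y : PS n) {t : ℕ}
    (Γ : Fin t → CF α) : Finset (Fin t) :=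
  (K t Γ).filter (fun j => F g k true y (ct K (Γ j)))

open Classical in
lemma tset_card {y : PS n} {t : ℕ} (Γ : Fin t → CF α) :
    (tset K g k y Γ).card = Multiset.countP (fun χ => F g k true y (ct K χ)) (marked K Γ) := by
  rw [marked, Multiset.countP_map, tset, Finset.card_def, Finset.filter_val]

/-- the value of a gate -/
lemma val (hG : Good g k d ρ 𝒰) (h𝒰 : ∀ ψ ∈ 𝒰, ∀ χ ∈ ψ.sub, χ ∈ 𝒰) {S : ℕ → Bool} {t : ℕ}
    {Γ : Fin t → CF α} (hmem : ct K (.cnt S t Γ) ∈ 𝒰) {y0 y : PS n} (h0 : y0 ⊆ y)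
    (hy : IsPP y) (hρ : ρ ⊆ y) (hr : y.card + 2 * k + k * d ≤ n)
    (hdec : ∀ χ ∈ marked K Γ, F g k true y0 (ct K χ) ∨ F g k false y0 (ct K χ)) :
    ∃ z, y ⊆ z ∧ IsPP z ∧ z.card ≤ y.card + k ∧
      F g k (S (tset K g k y0 Γ).card) z (ct K (.cnt S t Γ)) := by
  classical
  rw [ct] at hmem ⊢
  refine gate_val hG h𝒰 hmem h0 hy hρ hr ?_ _ ?_
  · intro j hj
    exact hdec _ (Multiset.mem_map.mpr ⟨j, hj, rfl⟩)
  · intro j
    rw [tset, mem_filter]

/-- counting axioms are not false at small matchings -/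
lemma counting_ok (hG : Good g k d ρ 𝒰) (h𝒰 : ∀ ψ ∈ 𝒰, ∀ χ ∈ ψ.sub, χ ∈ 𝒰) {w : ℕ}
    (hw : ∀ t (Γ : Fin t → CF α), (K t Γ).card ≤ w) {ψ : CF α} (hψ : IsCounting K ψ)
    (hmem : ct K ψ ∈ 𝒰) {σ : PS n} (hσ : IsPP σ) (hρ : ρ ⊆ σ) (hσc : σ.card ≤ ρ.card + k)
    (hr : ρ.card + (w + 5) * k + k * d ≤ n) : ¬ W k (mf g (ct K ψ)) false σ := by
  classical
  intro hW
  have hr' : ρ.card + w * k + 5 * k + k * d ≤ n := by
    have : (w + 5) * k = w * k + 5 * k := by ring
    omega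
  obtain ⟨t, φs, rfl, hcase⟩ := hψ
  have hdep := Nat.mul_le_mul_left k (hG.dep _ hmem)
  have hU : ∀ l, ∀ χ ∈ (φs l).sub, ct K χ ∈ 𝒰 := fun l χ hχ =>
    h𝒰 _ hmem _ (sub_ct _ _ (sub_or l hχ))
  have hW' := hW
  rw [ct, W_mf_or_false] at hW'
  have hno : ∀ π, IsPP π → σ ⊆ π → π.card + k * d ≤ n → ∀ l, ¬ F g k true π (ct K (φs l)) :=
    fun π h1 h2 h3 l => hW' π h1 h2 (by
      have : k * (mf g (ct K (.or t φs))).dep ≤ k * d := hdep
      rw [ct] at this
      omega) l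
  -- deciding the marked arguments of a list
  have hdecide : ∀ (s : ℕ) (Γ : Fin s → CF α), (∀ j, ct K (Γ j) ∈ 𝒰) →
      ∃ y, σ ⊆ y ∧ IsPP y ∧ y.card ≤ σ.card + w * k ∧
        ∀ χ ∈ marked K Γ, F g k true y (ct K χ) ∨ F g k false y (ct K χ) := by
    intro s Γ hΓ
    have hc : Multiset.card ((marked K Γ).map (ct K)) ≤ w := by
      rw [Multiset.card_map, marked, Multiset.card_map]
      exact hw s Γ
    have hck := Nat.mul_le_mul_right k hc
    obtain ⟨y, h1, h2, h3, h4⟩ := decide_all hG ((marked K Γ).map (ct K)) (by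
      intro φ hφ
      obtain ⟨χ, hχ, rfl⟩ := Multiset.mem_map.mp hφ
      obtain ⟨j, _, rfl⟩ := Multiset.mem_map.mp hχ
      exact hΓ j) hσ hρ (by omega)
    exact ⟨y, h1, h2, by omega, fun χ hχ => h4 _ (Multiset.mem_map_of_mem _ hχ)⟩
  rcases hcase with ⟨b, v, S, φ, s, Γ, Γ', _, hm, ⟨l1, e1⟩, ⟨l2, e2⟩, l3, e3⟩ |
    ⟨S, s, Γ, Γ', _, hm, ⟨l2, e2⟩, l3, e3⟩ | ⟨S, Γ, l, e⟩
  · -- adding an argument
    have hc3 : ct K (.cnt S (s + 1) Γ') ∈ 𝒰 := hU l3 _ (by rw [e3]; exact sub_lit (cself _))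
    have hc2 : ct K (.cnt (fun x => if b = true then S (x + 1) else S x) s Γ) ∈ 𝒰 :=
      hU l2 _ (by rw [e2]; exact sub_lit (cself _))
    obtain ⟨y, h1, h2, h3, h4⟩ := hdecide (s + 1) Γ' (fun j =>
      hU l3 _ (by rw [e3]; exact sub_lit (sub_cnt j (cself _))))
    rw [hm] at h4
    have hφd := h4 φ (Multiset.mem_cons_self _ _)
    have hΓd : ∀ χ ∈ marked K Γ, F g k true y (ct K χ) ∨ F g k false y (ct K χ) :=
      fun χ hχ => h4 χ (Multiset.mem_cons_of_mem hχ)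
    have hΓ'd : ∀ χ ∈ marked K Γ', F g k true y (ct K χ) ∨ F g k false y (ct K χ) := by
      rw [hm]; exact h4
    obtain ⟨z1, f1, f2, f3, f4⟩ := val hG h𝒰 hc2 (subset_refl y) h2 (hρ.trans h1) (by omega) hΓd
    obtain ⟨z2, g1, g2, g3, g4⟩ := val hG h𝒰 hc3 f1 f2 (hρ.trans (h1.trans f1)) (by omega) hΓ'd
    have f4' := W_mono _ f4 g1 g2
    have hσz : σ ⊆ z2 := h1.trans (f1.trans g1)
    have hcard : (tset K g k y Γ').card = (tset K g k y Γ).card +
        (if F g k true y (ct K φ) then 1 else 0) := by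
      rw [tset_card, tset_card, hm, Multiset.countP_cons]
    have hroom : z2.card + k * d ≤ n := by omega
    by_cases hφ : F g k true y (ct K φ)
    · rw [if_pos hφ] at hcard
      cases b with
      | false =>
        refine hno z2 g2 hσz hroom l1 ?_
        rw [e1, F_lit]
        exact W_mono _ hφ (f1.trans g1) g2
      | true =>
        simp only [if_true] at f4'
        rw [← hcard] at f4'
        by_cases hv : S (tset K g k y Γ').card = v
        · refine hno z2 g2 hσz hroom l3 ?_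
          rw [e3, F_lit, ← hv]
          exact g4
        · have hv' : S (tset K g k y Γ').card = !v := by
            cases v <;> cases hh : S (tset K g k y Γ').card <;> simp_all
          refine hno z2 g2 hσz hroom l2 ?_
          rw [e2, F_lit, ← hv']
          exact f4'
    · have hφf : F g k false y (ct K φ) := hφd.resolve_left hφ
      rw [if_neg hφ] at hcard
      replace hcard := hcard.trans (Nat.add_zero _)
      cases b with
      | true =>
        refine hno z2 g2 hσz hroom l1 ?_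
        rw [e1, F_lit]
        exact W_mono _ hφf (f1.trans g1) g2
      | false =>
        simp only [Bool.false_eq_true, if_false] at f4'
        rw [← hcard] at f4'
        by_cases hv : S (tset K g k y Γ').card = v
        · refine hno z2 g2 hσz hroom l3 ?_
          rw [e3, F_lit, ← hv]
          exact g4
        · have hv' : S (tset K g k y Γ').card = !v := by
            cases v <;> cases hh : S (tset K g k y Γ').card <;> simp_all
          refine hno z2 g2 hσz hroom l2 ?_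
          rw [e2, F_lit, ← hv']
          exact f4'
  · -- permuting the arguments
    have hc3 : ct K (.cnt S s Γ') ∈ 𝒰 := hU l3 _ (by rw [e3]; exact cself _)
    have hc2 : ct K (.cnt S s Γ) ∈ 𝒰 :=
      hU l2 _ (by rw [e2]; exact sub_lit (v := false) (cself _))
    obtain ⟨y, h1, h2, h3, h4⟩ := hdecide s Γ (fun j =>
      hU l2 _ (by rw [e2]; exact sub_lit (v := false) (sub_cnt j (cself _))))
    have hΓ'd : ∀ χ ∈ marked K Γ', F g k true y (ct K χ) ∨ F g k false y (ct K χ) := by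
      rw [hm]; exact h4
    obtain ⟨z1, f1, f2, f3, f4⟩ := val hG h𝒰 hc2 (subset_refl y) h2 (hρ.trans h1) (by omega) h4
    obtain ⟨z2, g1, g2, g3, g4⟩ := val hG h𝒰 hc3 f1 f2 (hρ.trans (h1.trans f1)) (by omega) hΓ'd
    have f4' := W_mono _ f4 g1 g2
    have hσz : σ ⊆ z2 := h1.trans (f1.trans g1)
    have hcard : (tset K g k y Γ').card = (tset K g k y Γ).card := by
      rw [tset_card, tset_card, hm]
    have hroom : z2.card + k * d ≤ n := by omega
    rw [hcard] at g4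
    cases hv : S (tset K g k y Γ).card with
    | true =>
      refine hno z2 g2 hσz hroom l3 ?_
      rw [e3]
      rw [hv] at g4
      exact g4
    | false =>
      refine hno z2 g2 hσz hroom l2 ?_
      rw [e2, ct, F_neg, Bool.not_true]
      rw [hv] at f4'
      exact f4'
  · -- no arguments
    have hc : ct K (.cnt S 0 Γ) ∈ 𝒰 := hU l _ (by rw [e]; exact sub_lit (cself _))
    obtain ⟨z, f1, f2, f3, f4⟩ := val hG h𝒰 hc (subset_refl σ) hσ hρ (by omega) (by
      intro χ hχ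
      obtain ⟨j, _⟩ := Multiset.mem_map.mp hχ
      exact j.elim0)
    have h0 : (tset K g k σ Γ).card = 0 := by
      rw [card_eq_zero]
      exact Finset.eq_empty_of_isEmpty _
    rw [h0] at f4
    refine hno z f2 f1 (by omega) l ?_
    rw [e, F_lit]
    exact f4

end

lemma sub_trans' {α : Type} (φ : Fm α) : ∀ ψ ∈ φ.sub, ψ.sub ⊆ φ.sub := by
  classical
  induction φ with
  | var a =>
    intro ψ hψ
    rw [Fm.sub, mem_singleton] at hψ
    rw [hψ]
  | neg φ ih =>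
    intro ψ hψ
    have hψ' := hψ
    rw [Fm.sub, mem_insert] at hψ'
    rcases hψ' with rfl | h
    · exact subset_rfl
    · rw [Fm.sub]
      exact (ih ψ h).trans (subset_insert _ _)
  | and t φs ih =>
    intro ψ hψ
    have hψ' := hψ
    rw [Fm.sub, mem_insert, mem_biUnion] at hψ'
    rcases hψ' with rfl | ⟨j, _, h⟩
    · exact subset_rfl
    · intro χ hχ
      rw [Fm.sub, mem_insert, mem_biUnion]
      exact Or.inr ⟨j, mem_univ _, ih j ψ h hχ⟩
  | or t φs ih =>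
    intro ψ hψ
    have hψ' := hψ
    rw [Fm.sub, mem_insert, mem_biUnion] at hψ'
    rcases hψ' with rfl | ⟨j, _, h⟩
    · exact subset_rfl
    · intro χ hχ
      rw [Fm.sub, mem_insert, mem_biUnion]
      exact Or.inr ⟨j, mem_univ _, ih j ψ h hχ⟩

lemma allSub_sub {α : Type} {T : ℕ} (L : Fin T → Fm α) :
    ∀ ψ ∈ Pool.Agent.TH710.PHP.allSub L, ∀ χ ∈ ψ.sub, χ ∈ Pool.Agent.TH710.PHP.allSub L := by
  classical
  intro ψ hψ χ hχ
  rw [Pool.Agent.TH710.PHP.allSub, mem_biUnion] at hψ ⊢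
  obtain ⟨i, _, h⟩ := hψ
  exact ⟨i, mem_univ _, sub_trans' _ ψ h hχ⟩

/-- the combinatorial core, with more room -/
theorem core' (c d : ℕ) : ∃ C : ℕ, 0 < C ∧ ∀ n Y w : ℕ, 1 ≤ Y →
    (C * Y * (w + 1)) ^ (12 ^ d) ≤ n →
    ∀ (α : Type) (g : α → MF n), (∀ a, Atomic (g a)) → ∀ (T : ℕ) (L : Fin T → Fm α),
      (∀ i, (L i).depth ≤ d) →
      (∀ i, (∀ (k : ℕ) (ρ : PS n), Good g k d ρ (Pool.Agent.TH710.PHP.allSub L) →
          ρ.card + (w + 5) * k + k * d + 1 ≤ n → ¬ Bad g k ρ L i) ∨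
        Pool.Agent.TH710.PHP.Inferred c L i) →
      (∃ i f, L i = .or 0 f) → 16 ^ Y < 3 * (Pool.Agent.TH710.PHP.allSub L).card := by
  classical
  refine ⟨2 * (3 * c + 8 + d + 32), by omega, ?_⟩
  intro n Y w hY hn α g hg T L hdepth hL hcontra
  by_contra hcon
  push Not at hcon
  have hg0 : ∀ a, (g a).dep = 0 := by
    intro a
    have h := hg a
    cases hga : g a with
    | cst b => rfl
    | var e => rfl
    | neg φ => rw [hga] at h; exact h.elim
    | or t φs => rw [hga] at h; exact h.elim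
  set k : ℕ := 2 * Y with hk
  set m : ℕ := (3 * c + 8 + d + 32 + w) * k with hm
  have hm' : m ≤ 2 * (3 * c + 8 + d + 32) * Y * (w + 1) := by
    have h1 : 3 * c + 8 + d + 32 + w ≤ (3 * c + 8 + d + 32) * (w + 1) := by nlinarith
    calc m ≤ (3 * c + 8 + d + 32) * (w + 1) * k := Nat.mul_le_mul_right _ h1
      _ = 2 * (3 * c + 8 + d + 32) * Y * (w + 1) := by rw [hk]; ring
  replace hn : m ^ (12 ^ d) ≤ n := (Nat.pow_le_pow_left hm' _).trans hn
  have hk2 : 2 ≤ k := by omega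
  have hm32 : 32 ≤ m := by nlinarith
  have hmk : k ≤ m := by nlinarith
  have hm1 : 1 ≤ m := by omega
  -- the sizes
  let Asz : ℕ → ℕ := fun h => if h = 0 then n else m ^ (12 ^ (d - h))
  have hAm : ∀ h, 1 ≤ h → m ≤ Asz h := by
    intro h hh
    simp only [Asz, if_neg (show h ≠ 0 by omega)]
    exact Nat.le_self_pow (by positivity) m
  have hAstep : ∀ h < d, Asz (h + 1) ^ 12 ≤ Asz h := by
    intro h hh
    have e1 : Asz (h + 1) = m ^ (12 ^ (d - (h + 1))) := by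
      simp only [Asz, if_neg (show h + 1 ≠ 0 by omega)]
    have e2 : 12 ^ (d - (h + 1)) * 12 = 12 ^ (d - h) := by
      rw [← pow_succ]; congr 1; omega
    rw [e1, ← pow_mul, e2]
    by_cases h0 : h = 0
    · subst h0
      simp only [Asz, if_true, Nat.sub_zero]
      exact hn
    · simp only [Asz, if_neg h0]
      exact le_rfl
  have hmn : m ≤ n := by
    refine le_trans ?_ hn
    exact Nat.le_self_pow (by positivity) m
  have hAn : ∀ h ≤ d, Asz h ≤ n := by
    intro h hh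
    by_cases h0 : h = 0
    · simp only [Asz, h0, if_true]; exact le_rfl
    · simp only [Asz, if_neg h0]
      refine le_trans ?_ hn
      exact Nat.pow_le_pow_right hm1 (Nat.pow_le_pow_right (by omega) (by omega))
  let b : ℕ → ℕ := fun h => n - Asz h
  have hb0 : b 0 = 0 := by simp [b, Asz]
  have hstep : ∀ h < d, b (h + 1) ≤ n ∧ b h ≤ b (h + 1) ∧
      16 * (2 * k * ((2 * n + 1 - 2 * b (h + 1)) ^ 2) ^ 2 * (2 * n + 1 - 2 * b (h + 1)) ^ 2) ≤
        b (h + 1) - b h := by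
    intro h hh
    have hm' := hAm (h + 1) (by omega)
    exact num_step (hm32.trans hm') (hmk.trans hm') (hAstep h hh) (hAn h (by omega))
  have hfamcard : (fam g (Pool.Agent.TH710.PHP.allSub L)).card ≤ 16 ^ Y := (fam_card _).trans hcon
  obtain ⟨ρ, hρ1, hρ2, hρ3⟩ := levels (k := k) (D := Y) hY rfl
    (fam g (Pool.Agent.TH710.PHP.allSub L))
    (fam_closed hg (Pool.Agent.TH710.PHP.allSub_closed L)) hfamcard b hb0 d
    hstep d le_rfl
  have hdep := depth_allSub L hdepth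
  have hG : Good g k d ρ (Pool.Agent.TH710.PHP.allSub L) := by
    refine ⟨Pool.Agent.TH710.PHP.allSub_closed L, ?_, ?_⟩
    · intro φ hφ
      exact (dep_mf hg0 φ).trans (hdep φ hφ)
    · intro φ hφ
      exact hρ3 _ (mem_fam hφ) ((dep_mf hg0 φ).trans (hdep φ hφ))
  have hfree : ρ.card + m ≤ n := by
    rw [hρ2]
    by_cases hd0 : d = 0
    · rw [hd0, hb0]
      omega
    · have h1 : Asz d = m := by
        simp only [Asz, if_neg hd0, Nat.sub_self, pow_zero, pow_one]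
      simp only [b, h1]
      omega
  have hroom : ρ.card + (3 * c + 6 + d) * k ≤ n := by
    have : (3 * c + 6 + d) * k ≤ m := Nat.mul_le_mul_right _ (by omega)
    omega
  have hno := no_bad (c := c) hG hroom (by
    intro i
    rcases hL i with h | h
    · left
      refine h k ρ hG ?_
      have e1 : m = (w + 5) * k + k * d + (3 * c + 35) * k := by rw [hm]; ring
      have e2 : k ≤ (3 * c + 35) * k := Nat.le_mul_of_pos_left _ (by omega)
      omega
    · exact Or.inr h)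
  obtain ⟨i, f, hi⟩ := hcontra
  apply hno i
  refine ⟨ρ, hρ1, subset_rfl, by omega, ?_⟩
  rw [hi, W_mf_or_false]
  intro _ _ _ _ j
  exact j.elim0

/-- lower bound with explicit parameters -/
theorem lower' (c d : ℕ) : ∃ C : ℕ, 0 < C ∧ ∀ m n κ B Y w : ℕ, 1 ≤ Y → B * κ ≤ n → m ≤ n + B →
    (C * Y * (w + 1)) ^ (12 ^ (2 * d)) ≤ κ → ∀ (K : Marking (Fin m × Fin n)),
    (∀ t (Γ : Fin t → CF (Fin m × Fin n)), (K t Γ).card ≤ w) →
    ∀ R : Refutation c d m n K, 16 ^ Y < 3 * ((2 ^ w + 2) * (2 * R.size)) := by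
  obtain ⟨C, hC, h⟩ := core' c (2 * d)
  refine ⟨C, hC, ?_⟩
  intro m n κ B Y w hY hB hm hκ K hK R
  have hκ1 : 1 ≤ κ := by
    refine le_trans ?_ hκ
    exact Nat.one_le_pow _ _ (Nat.mul_pos (Nat.mul_pos hC hY) (Nat.succ_pos _))
  have hdepth : ∀ i, (ct K (R.line i)).depth ≤ 2 * d := fun i =>
    (depth_ct _).trans (Nat.mul_le_mul_left 2 (R.depth i))
  have h1 := h κ Y w hY hκ (Fin m × Fin n) (gmap m n κ B hκ1) (gmap_atomic m n κ B hκ1) R.len
    (fun i => ct K (R.line i)) hdepth (by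
      intro i
      rcases R.sound i with h | h | h
      · left
        rintro k ρ _ hr ⟨σ, s1, _, s3, s4⟩
        have e : (w + 5) * k = w * k + 5 * k := by ring
        exact clause_ok hκ1 hB hm (clause_ct h) (hdepth i) s1 (by omega) s4
      · left
        rintro k ρ hG hr ⟨σ, s1, s2, s3, s4⟩
        exact counting_ok hG (allSub_sub _) hK h
          (mem_allSub (fun i => ct K (R.line i)) i) s1 s2 s3 (by omega) s4
      · exact Or.inr (inferred_ct h)) (by
      obtain ⟨i, f, hi⟩ := R.contra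
      refine ⟨i, fun j => j.elim0, ?_⟩
      rw [hi, ct]
      congr 1
      funext j
      exact j.elim0)
  exact h1.trans_le (Nat.mul_le_mul_left 3 (card_allSub_ct hK R.line))

open Filter Topology in
/-- numerical part -/
theorem lower_exp' (c d : ℕ) (δ : ℝ) (hδ : 0 < δ) : ∃ ε : ℝ, 0 < ε ∧ ∃ n₀ : ℕ, ∀ n m : ℕ, n₀ ≤ n →
    (m : ℝ) ≤ n + (n : ℝ) ^ (1 - δ) →
    ∀ (K : Marking (Fin m × Fin n)),
    (∀ t (Γ : Fin t → CF (Fin m × Fin n)), ((K t Γ).card : ℝ) ≤ (n : ℝ) ^ ε) →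
    ∀ R : Refutation c d m n K, Real.exp ((n : ℝ) ^ ε) ≤ R.size := by
  obtain ⟨C, hC, hlow⟩ := lower' c d
  set E : ℕ := 12 ^ (2 * d) with hE
  have hE1 : 1 ≤ E := Nat.one_le_pow _ _ (by norm_num)
  have hEr : (1 : ℝ) ≤ E := by exact_mod_cast hE1
  set δ' : ℝ := min δ 1 with hδ'
  have hδ0 : 0 < δ' := lt_min hδ one_pos
  have hδ1 : δ' ≤ 1 := min_le_right _ _
  have hδδ : δ' ≤ δ := min_le_left _ _
  set ε : ℝ := δ' / (8 * E) with hε
  have hε0 : 0 < ε := by positivity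
  have htend : Tendsto (fun n : ℕ => ((n : ℕ) : ℝ) ^ (δ' / 4)) atTop atTop :=
    (tendsto_rpow_atTop (by positivity)).comp tendsto_natCast_atTop_atTop
  obtain ⟨n₀, hn₀⟩ := eventually_atTop.mp (htend.eventually_ge_atTop (((18 * C : ℕ) : ℝ) ^ E + 4))
  refine ⟨ε, hε0, max n₀ 1, ?_⟩
  intro n m hn hm K hK R
  have hn1 : 1 ≤ n := (le_max_right _ _).trans hn
  have hn1r : (1 : ℝ) ≤ n := by exact_mod_cast hn1
  have hn0r : (0 : ℝ) < n := by linarith
  set x : ℝ := (n : ℝ) ^ (δ' / 4) with hx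
  have hxbig : ((18 * C : ℕ) : ℝ) ^ E + 4 ≤ x := hn₀ n ((le_max_left _ _).trans hn)
  have hCE : (0 : ℝ) ≤ ((18 * C : ℕ) : ℝ) ^ E := by positivity
  have hx4 : 4 ≤ x := by linarith
  have hxpow : x ^ 4 = (n : ℝ) ^ δ' := by
    rw [hx, ← Real.rpow_natCast, ← Real.rpow_mul hn0r.le]
    congr 1
    push_cast
    ring
  -- the blocks
  set z : ℝ := (n : ℝ) ^ (1 - δ') with hz
  have hz1 : 1 ≤ z := Real.one_le_rpow hn1r (by linarith)
  set B : ℕ := ⌈z⌉₊ with hB
  have hBz : z ≤ B := Nat.le_ceil z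
  have hBz2 : (B : ℝ) ≤ 2 * z := by
    have := (Nat.ceil_lt_add_one (by linarith : 0 ≤ z)).le
    linarith
  have hB1 : 1 ≤ B := by
    have : (1 : ℝ) ≤ B := hz1.trans hBz
    exact_mod_cast this
  set κ : ℕ := n / B with hκ
  have hBκ : B * κ ≤ n := Nat.mul_div_le n B
  have hmB : m ≤ n + B := by
    have h1 : (n : ℝ) ^ (1 - δ) ≤ z := Real.rpow_le_rpow_of_exponent_le hn1r (by linarith)
    have h2 : (m : ℝ) ≤ ((n + B : ℕ) : ℝ) := by push_cast; linarith
    exact_mod_cast h2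
  have hκbig : x ^ 4 / 2 - 1 ≤ κ := by
    have h1 : n < B * (κ + 1) := by
      have := Nat.lt_mul_div_succ n (show 0 < B by omega)
      exact this
    have h2 : (n : ℝ) < B * (κ + 1) := by exact_mod_cast h1
    have h3 : x ^ 4 * z = n := by
      rw [hxpow, hz, ← Real.rpow_add hn0r]
      simp
    have h4 : x ^ 4 * z < 2 * z * (κ + 1) := by
      rw [h3]
      refine h2.trans_le ?_
      have : (0 : ℝ) ≤ (κ : ℝ) + 1 := by positivity
      exact mul_le_mul_of_nonneg_right hBz2 this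
    have h5 : x ^ 4 < 2 * (κ + 1) := by
      have h6 : x ^ 4 * z < (2 * (κ + 1)) * z := by linarith
      exact lt_of_mul_lt_mul_right h6 (by linarith)
    linarith
  -- the parameter
  set Y : ℕ := ⌈(n : ℝ) ^ ε⌉₊ + 1 with hY
  have hnε : 1 ≤ (n : ℝ) ^ ε := Real.one_le_rpow hn1r hε0.le
  have hceil : 1 ≤ ⌈(n : ℝ) ^ ε⌉₊ := by
    have h1 := Nat.le_ceil ((n : ℝ) ^ ε)
    have h2 : (1 : ℝ) ≤ ⌈(n : ℝ) ^ ε⌉₊ := hnε.trans h1
    exact_mod_cast h2
  have hY2 : 2 ≤ Y := by omega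
  have hY1 : (n : ℝ) ^ ε + 1 ≤ Y := by
    rw [hY]; push_cast
    have := Nat.le_ceil ((n : ℝ) ^ ε)
    linarith
  have hY3 : (Y : ℝ) ≤ 3 * (n : ℝ) ^ ε := by
    rw [hY]; push_cast
    have := (Nat.ceil_lt_add_one (by linarith : 0 ≤ (n : ℝ) ^ ε)).le
    linarith
  have hKY : ∀ t (Γ : Fin t → CF (Fin m × Fin n)), (K t Γ).card ≤ Y := by
    intro t Γ
    have h1 := hK t Γ
    have h2 : ((K t Γ).card : ℝ) ≤ Y := by linarith
    exact_mod_cast h2
  have hCY : (C * Y * (Y + 1)) ^ E ≤ κ := by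
    have h1 : (((C * Y * (Y + 1)) ^ E : ℕ) : ℝ) ≤ (κ : ℝ) := by
      refine le_trans ?_ hκbig
      push_cast
      have h2 : ((C : ℝ) * Y * (Y + 1)) ^ E ≤
          (((18 * C : ℕ) : ℝ) * ((n : ℝ) ^ ε * (n : ℝ) ^ ε)) ^ E := by
        apply pow_le_pow_left₀ (by positivity)
        push_cast
        have h0 : (0 : ℝ) ≤ C := Nat.cast_nonneg _
        have hYr : (1 : ℝ) ≤ Y := by linarith
        have h3 : (Y : ℝ) * (Y + 1) ≤ 18 * ((n : ℝ) ^ ε * (n : ℝ) ^ ε) := by nlinarith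
        calc (C : ℝ) * Y * (Y + 1) = C * (Y * (Y + 1)) := by ring
          _ ≤ C * (18 * ((n : ℝ) ^ ε * (n : ℝ) ^ ε)) := mul_le_mul_of_nonneg_left h3 h0
          _ = 18 * C * ((n : ℝ) ^ ε * (n : ℝ) ^ ε) := by ring
      refine h2.trans ?_
      rw [mul_pow]
      have h3 : ((n : ℝ) ^ ε * (n : ℝ) ^ ε) ^ E = x := by
        rw [← Real.rpow_add hn0r, ← Real.rpow_natCast, ← Real.rpow_mul hn0r.le, hx, hε]
        congr 1
        field_simp
        ring
      rw [h3]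
      have h4 : ((18 * C : ℕ) : ℝ) ^ E ≤ x := by linarith
      have h5 : ((18 * C : ℕ) : ℝ) ^ E * x ≤ x * x :=
        mul_le_mul_of_nonneg_right h4 (by linarith)
      refine h5.trans ?_
      nlinarith [mul_self_nonneg (x * x - 4)]
    exact_mod_cast h1
  have hfin := hlow m n κ B Y Y (by omega) hBκ hmB hCY K hKY R
  have hfin' : (16 : ℝ) ^ Y < 3 * ((2 ^ Y + 2) * (2 * R.size)) := by exact_mod_cast hfin
  have h16 : Real.exp ((n : ℝ) ^ ε) * (6 * (2 ^ Y + 2)) ≤ (16 : ℝ) ^ Y := by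
    obtain ⟨Z, hZ⟩ : ∃ Z, Y = Z + 2 := ⟨Y - 2, by omega⟩
    have h1 : Real.exp ((n : ℝ) ^ ε) ≤ (3 : ℝ) ^ (Z + 1) := by
      have h2 : Real.exp ((Z + 1 : ℕ) : ℝ) = Real.exp 1 ^ (Z + 1) := by
        rw [← Real.exp_nat_mul, mul_one]
      have h3 : (n : ℝ) ^ ε ≤ ((Z + 1 : ℕ) : ℝ) := by
        have : (Y : ℝ) = Z + 2 := by rw [hZ]; push_cast; ring
        push_cast
        linarith
      calc Real.exp ((n : ℝ) ^ ε) ≤ Real.exp ((Z + 1 : ℕ) : ℝ) := Real.exp_le_exp.mpr h3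
        _ = Real.exp 1 ^ (Z + 1) := h2
        _ ≤ 3 ^ (Z + 1) := by
            apply pow_le_pow_left₀ (Real.exp_pos 1).le
            have := Real.exp_one_lt_d9
            linarith
    have h2 : (6 : ℝ) * (2 ^ Y + 2) ≤ 12 * 2 ^ Y := by
      have : (1 : ℝ) ≤ 2 ^ Y := one_le_pow₀ (by norm_num)
      have h4 : (2 : ℝ) ≤ 2 ^ Y := by
        calc (2 : ℝ) = 2 ^ 1 := (pow_one _).symm
          _ ≤ 2 ^ Y := pow_le_pow_right₀ (by norm_num) (by omega)
      linarith
    calc Real.exp ((n : ℝ) ^ ε) * (6 * (2 ^ Y + 2)) ≤ 3 ^ (Z + 1) * (12 * 2 ^ Y) :=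
          mul_le_mul h1 h2 (by positivity) (by positivity)
      _ = 144 * 6 ^ Z := by
          rw [hZ, pow_succ, pow_add, show (6 : ℝ) = 3 * 2 by norm_num, mul_pow]; ring
      _ ≤ 256 * 16 ^ Z := by
          have : (6 : ℝ) ^ Z ≤ 16 ^ Z := pow_le_pow_left₀ (by norm_num) (by norm_num) _
          have h0 : (0 : ℝ) ≤ 16 ^ Z := by positivity
          nlinarith
      _ = 16 ^ Y := by rw [hZ, pow_add]; norm_num; ring
  have hpos : (0 : ℝ) < 6 * (2 ^ Y + 2) := by positivity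
  have h17 : Real.exp ((n : ℝ) ^ ε) * (6 * (2 ^ Y + 2)) < R.size * (6 * (2 ^ Y + 2)) := by
    calc _ ≤ (16 : ℝ) ^ Y := h16
      _ < 3 * ((2 ^ Y + 2) * (2 * R.size)) := hfin'
      _ = R.size * (6 * (2 ^ Y + 2)) := by ring
  exact (lt_of_mul_lt_mul_right h17 hpos.le).le

end Pool.Agent.TH677.SG
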