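import Pool.Agent.TH677.SG.Defs

/-!
Translation of symmetric gates with few marked arguments.
-/

set_option autoImplicit false
set_option linter.unusedSectionVars false

namespace Pool.Agent.TH677.SG

open Finset Pool.Agent.TH710.PHP

variable {α : Type}

/-- disjunction of a list -/
def orL (l : List (Fm α)) : Fm α := .or l.length (fun i => l.get i)

/-- the true formula -/
def top : Fm α := .and 0 Fin.elim0

/-- a contradiction that contains `φ` -/
def bad (φ : Fm α) : Fm α := .and 2 ![φ, .neg φ]

open Classical in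
/-- the conjunction saying which of the marked arguments are true -/
noncomputable def term {t : ℕ} (J A : Finset (Fin t)) (f : Fin t → Fm α) : Fm α :=
  .and t (fun j => if j ∈ J then (if j ∈ A then f j else .neg (f j)) else top)

open Classical in
/-- the disjuncts of the translation of a gate -/
noncomputable def gl (S : ℕ → Bool) {t : ℕ} (J : Finset (Fin t)) (f : Fin t → Fm α) :
    List (Fm α) :=
  (J.powerset.filter (fun A => S A.card = true)).toList.map (fun A => term J A f) ++
    (List.finRange t).map (fun j => bad (f j))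

/-- the translation -/
noncomputable def ct (K : Marking α) : CF α → Fm α
  | .var a => .var a
  | .neg φ => .neg (ct K φ)
  | .and t φs => .and t (fun j => ct K (φs j))
  | .or t φs => .or t (fun j => ct K (φs j))
  | .cnt S t φs => orL (gl S (K t φs) (fun j => ct K (φs j)))

variable {K : Marking α}

/-! ### depth -/

lemma alt_orL_true {l : List (Fm α)} {d : ℕ} (h : ∀ ψ ∈ l, ψ.alt true ≤ d) :
    (orL l).alt true ≤ d := by
  simp only [orL, Fm.alt]
  exact Finset.sup_le (fun i _ => h _ (List.get_mem _ _))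

lemma alt_orL_false {l : List (Fm α)} {d : ℕ} (h : ∀ ψ ∈ l, ψ.alt true ≤ d) :
    (orL l).alt false ≤ d + 1 := by
  simp only [orL, Fm.alt]
  exact Nat.succ_le_succ (Finset.sup_le (fun i _ => h _ (List.get_mem _ _)))

lemma alt_gl {S : ℕ → Bool} {t : ℕ} {J : Finset (Fin t)} {f : Fin t → Fm α} {d : ℕ}
    (h : ∀ j, (f j).alt true ≤ d ∧ (f j).alt false ≤ d) : ∀ ψ ∈ gl S J f, ψ.alt true ≤ d + 1 := by
  classical
  intro ψ hψ
  rw [gl, List.mem_append, List.mem_map, List.mem_map] at hψ
  rcases hψ with ⟨A, _, rfl⟩ | ⟨j, _, rfl⟩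
  · simp only [term, Fm.alt]
    refine Nat.succ_le_succ (Finset.sup_le (fun j _ => ?_))
    split_ifs
    · exact (h j).2
    · simp only [Fm.alt, Bool.not_false]; exact (h j).1
    · simp [top, Fm.alt]
  · simp only [bad, Fm.alt]
    refine Nat.succ_le_succ (Finset.sup_le (fun i _ => ?_))
    fin_cases i
    · exact (h j).2
    · simp only [Fm.alt]
      exact (h j).1

lemma alt_ct (φ : CF α) : ∀ s, (ct K φ).alt s ≤ 2 * φ.alt s := by
  induction φ with
  | var a => intro s; simp [ct, Fm.alt]
  | neg φ ih => intro s; simp only [ct, Fm.alt, CF.alt]; exact ih _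
  | and t φs ih =>
    have h1 : univ.sup (fun j => (ct K (φs j)).alt false) ≤
        2 * univ.sup (fun j => (φs j).alt false) := by
      refine Finset.sup_le (fun j _ => (ih j false).trans ?_)
      exact Nat.mul_le_mul_left 2 (Finset.le_sup (f := fun j => (φs j).alt false) (mem_univ j))
    intro s
    cases s
    · simp only [ct, Fm.alt, CF.alt]; exact h1
    · simp only [ct, Fm.alt, CF.alt]; omega
  | or t φs ih =>
    have h1 : univ.sup (fun j => (ct K (φs j)).alt true) ≤
        2 * univ.sup (fun j => (φs j).alt true) := by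
      refine Finset.sup_le (fun j _ => (ih j true).trans ?_)
      exact Nat.mul_le_mul_left 2 (Finset.le_sup (f := fun j => (φs j).alt true) (mem_univ j))
    intro s
    cases s
    · simp only [ct, Fm.alt, CF.alt]; omega
    · simp only [ct, Fm.alt, CF.alt]; exact h1
  | cnt S t φs ih =>
    set M := univ.sup (fun j => max ((φs j).alt true) ((φs j).alt false)) with hM
    have h0 : ∀ j, (ct K (φs j)).alt true ≤ 2 * M ∧ (ct K (φs j)).alt false ≤ 2 * M := by
      intro j
      have h1 : max ((φs j).alt true) ((φs j).alt false) ≤ M :=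
        Finset.le_sup (f := fun j => max ((φs j).alt true) ((φs j).alt false)) (mem_univ j)
      have h2 := ih j true
      have h3 := ih j false
      constructor
      · exact h2.trans (Nat.mul_le_mul_left 2 ((le_max_left _ _).trans h1))
      · exact h3.trans (Nat.mul_le_mul_left 2 ((le_max_right _ _).trans h1))
    have h4 := alt_gl (S := S) (J := K t φs) h0
    intro s
    cases s
    · simp only [ct, CF.alt]
      have := alt_orL_false h4
      omega
    · simp only [ct, CF.alt]
      have := alt_orL_true h4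
      omega

lemma depth_ct (φ : CF α) : (ct K φ).depth ≤ 2 * φ.depth := by
  have h1 := alt_ct (K := K) φ true
  have h2 := alt_ct (K := K) φ false
  simp only [Fm.depth, CF.depth]
  have e1 : φ.alt true ≤ max (φ.alt true) (φ.alt false) := le_max_left _ _
  have e2 : φ.alt false ≤ max (φ.alt true) (φ.alt false) := le_max_right _ _
  exact max_le (by omega) (by omega)

/-! ### subformulas -/

lemma sub_orL {l : List (Fm α)} {ψ χ : Fm α} (hψ : ψ ∈ l) (hχ : χ ∈ ψ.sub) :
    χ ∈ (orL l).sub := by
  classical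
  obtain ⟨i, rfl⟩ := List.get_of_mem hψ
  rw [orL, Fm.sub, mem_insert, mem_biUnion]
  exact Or.inr ⟨i, mem_univ _, hχ⟩

lemma sub_bad {φ χ : Fm α} (h : χ ∈ φ.sub) : χ ∈ (bad φ).sub := by
  classical
  rw [bad, Fm.sub, mem_insert, mem_biUnion]
  exact Or.inr ⟨0, mem_univ _, h⟩

lemma sub_gate {S : ℕ → Bool} {t : ℕ} {J : Finset (Fin t)} {f : Fin t → Fm α} {χ : Fm α}
    (j : Fin t) (h : χ ∈ (f j).sub) : χ ∈ (orL (gl S J f)).sub := by
  classical
  refine sub_orL (ψ := bad (f j)) ?_ (sub_bad h)
  rw [gl, List.mem_append, List.mem_map, List.mem_map]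
  exact Or.inr ⟨j, List.mem_finRange j, rfl⟩

lemma sub_ct (φ : CF α) : ∀ χ ∈ φ.sub, ct K χ ∈ (ct K φ).sub := by
  classical
  induction φ with
  | var a =>
    intro χ hχ
    rw [CF.sub, mem_singleton] at hχ
    subst hχ
    exact self_mem_sub _
  | neg φ ih =>
    intro χ hχ
    rw [CF.sub, mem_insert] at hχ
    rcases hχ with rfl | hχ
    · exact self_mem_sub _
    · rw [ct, Fm.sub, mem_insert]; exact Or.inr (ih χ hχ)
  | and t φs ih =>
    intro χ hχ
    rw [CF.sub, mem_insert, mem_biUnion] at hχ
    rcases hχ with rfl | ⟨j, _, hχ⟩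
    · exact self_mem_sub _
    · rw [ct, Fm.sub, mem_insert, mem_biUnion]; exact Or.inr ⟨j, mem_univ _, ih j χ hχ⟩
  | or t φs ih =>
    intro χ hχ
    rw [CF.sub, mem_insert, mem_biUnion] at hχ
    rcases hχ with rfl | ⟨j, _, hχ⟩
    · exact self_mem_sub _
    · rw [ct, Fm.sub, mem_insert, mem_biUnion]; exact Or.inr ⟨j, mem_univ _, ih j χ hχ⟩
  | cnt S t φs ih =>
    intro χ hχ
    rw [CF.sub, mem_insert, mem_biUnion] at hχ
    rcases hχ with rfl | ⟨j, _, hχ⟩
    · exact self_mem_sub _
    · rw [ct]; exact sub_gate j (ih j χ hχ)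

lemma allSub_ct {T : ℕ} {L : Fin T → CF α} {χ : CF α} (h : χ ∈ allSub L) :
    ct K χ ∈ Pool.Agent.TH710.PHP.allSub (fun i => ct K (L i)) := by
  classical
  rw [allSub, mem_biUnion] at h
  obtain ⟨i, _, h⟩ := h
  rw [Pool.Agent.TH710.PHP.allSub, mem_biUnion]
  exact ⟨i, mem_univ _, sub_ct _ _ h⟩

/-! ### number of subformulas -/

lemma card_gate {S : ℕ → Bool} {t w : ℕ} {J : Finset (Fin t)}
    {f : Fin t → Fm α} (hJ : J.card ≤ w) (b : Fin t → ℕ) (hB : ∀ j, (f j).sub.card ≤ b j) :
    (orL (gl S J f)).sub.card ≤ 2 ^ w + 2 + 2 * t + ∑ j, b j := by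
  classical
  have h1 : (orL (gl S J f)).sub ⊆
      insert (orL (gl S J f)) (insert top ((J.powerset.image (fun A => term J A f)) ∪
        (univ.image (fun j => bad (f j))) ∪ (univ.image (fun j => Fm.neg (f j))) ∪
        univ.biUnion (fun j => (f j).sub))) := by
    intro χ hχ
    have h0 : (orL (gl S J f)).sub = insert (orL (gl S J f))
        (univ.biUnion (fun i => ((gl S J f).get i).sub)) := by
      rw [orL, Fm.sub]
    rw [h0, mem_insert, mem_biUnion] at hχ
    rcases hχ with h | ⟨i, _, hχ⟩
    · exact mem_insert.mpr (Or.inl h)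
    have hi := List.get_mem (gl S J f) i
    generalize (gl S J f).get i = ψ at hi hχ
    rw [gl, List.mem_append, List.mem_map, List.mem_map] at hi
    refine mem_insert_of_mem ?_
    simp only [mem_insert, mem_union, mem_image, mem_biUnion, mem_univ, true_and, mem_powerset]
    rcases hi with ⟨A, hA, hA'⟩ | ⟨j, _, hj⟩
    · rw [← hA', term, Fm.sub, mem_insert, mem_biUnion] at hχ
      rcases hχ with rfl | ⟨j, _, hχ⟩
      · right; left; left; left
        rw [Finset.mem_toList, mem_filter, mem_powerset] at hA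
        exact ⟨A, hA.1, rfl⟩
      · split_ifs at hχ
        · right; right; exact ⟨j, hχ⟩
        · rw [Fm.sub, mem_insert] at hχ
          rcases hχ with rfl | hχ
          · right; left; right; exact ⟨j, rfl⟩
          · right; right; exact ⟨j, hχ⟩
        · left
          rw [top, Fm.sub, mem_insert, mem_biUnion] at hχ
          rcases hχ with rfl | ⟨i, _, _⟩
          · rfl
          · exact i.elim0
    · rw [← hj, bad, Fm.sub, mem_insert, mem_biUnion] at hχ
      rcases hχ with rfl | ⟨i, _, hχ⟩
      · right; left; left; right; exact ⟨j, rfl⟩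
      · fin_cases i
        · right; right; exact ⟨j, hχ⟩
        · change χ ∈ (Fm.neg (f j)).sub at hχ
          rw [Fm.sub, mem_insert] at hχ
          rcases hχ with rfl | hχ
          · right; left; right; exact ⟨j, rfl⟩
          · right; right; exact ⟨j, hχ⟩
  have h2 : (J.powerset.image (fun A => term J A f)).card ≤ 2 ^ w :=
    card_image_le.trans (by rw [card_powerset]; exact Nat.pow_le_pow_right (by norm_num) hJ)
  have h3 : (univ.image (fun j => bad (f j))).card ≤ t :=
    card_image_le.trans (by rw [card_univ, Fintype.card_fin])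
  have h4 : (univ.image (fun j => Fm.neg (f j))).card ≤ t :=
    card_image_le.trans (by rw [card_univ, Fintype.card_fin])
  have h5 : (univ.biUnion (fun j => (f j).sub)).card ≤ ∑ j, b j :=
    card_biUnion_le.trans (Finset.sum_le_sum (fun j _ => hB j))
  refine (card_le_card h1).trans ?_
  refine (card_insert_le _ _).trans ?_
  have h6 := card_insert_le (top : Fm α) ((J.powerset.image (fun A => term J A f)) ∪
        (univ.image (fun j => bad (f j))) ∪ (univ.image (fun j => Fm.neg (f j))) ∪
        univ.biUnion (fun j => (f j).sub))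
  have h7 := card_union_le ((J.powerset.image (fun A => term J A f)) ∪
        (univ.image (fun j => bad (f j))) ∪ (univ.image (fun j => Fm.neg (f j))))
        (univ.biUnion (fun j => (f j).sub))
  have h8 := card_union_le ((J.powerset.image (fun A => term J A f)) ∪
        (univ.image (fun j => bad (f j)))) (univ.image (fun j => Fm.neg (f j)))
  have h9 := card_union_le (J.powerset.image (fun A => term J A f))
        (univ.image (fun j => bad (f j)))
  omega

lemma size_pos (φ : CF α) : 1 ≤ φ.size := by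
  cases φ <;> simp [CF.size]

lemma card_sub_ct {w : ℕ} (hw : ∀ t (Γ : Fin t → CF α), (K t Γ).card ≤ w) (φ : CF α) :
    (ct K φ).sub.card + (2 ^ w + 2) ≤ (2 ^ w + 2) * (2 * φ.size) := by
  classical
  set N : ℕ := 2 ^ w + 2 with hN
  have hN2 : 2 ≤ N := Nat.le_add_left 2 _
  have key : ∀ (t : ℕ) (φs : Fin t → CF α) (b : Fin t → ℕ),
      (∀ j, b j + N ≤ N * (2 * (φs j).size)) →
      (∑ j, b j) + N * t ≤ N * (2 * ∑ j, (φs j).size) := by
    intro t φs b h
    have h1 : ∑ j, (b j + N) ≤ ∑ j, N * (2 * (φs j).size) := Finset.sum_le_sum (fun j _ => h j)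
    rw [Finset.sum_add_distrib, Finset.sum_const, card_univ, Fintype.card_fin, smul_eq_mul,
      ← Finset.mul_sum, ← Finset.mul_sum] at h1
    linarith [Nat.mul_comm t N]
  induction φ with
  | var a =>
    simp only [ct, Fm.sub, card_singleton, CF.size]
    have e : N * (2 * 1) = 2 * N := by ring
    rw [e]; linarith [hN2]
  | neg φ ih =>
    have h1 : (ct K (.neg φ)).sub.card ≤ (ct K φ).sub.card + 1 := by
      rw [ct, Fm.sub]; exact card_insert_le _ _
    have e : N * (2 * (CF.neg φ).size) = N * (2 * φ.size) + 2 * N := by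
      rw [CF.size]; ring
    rw [e]; omega
  | and t φs ih =>
    have h1 : (ct K (.and t φs)).sub.card ≤ (∑ j, (ct K (φs j)).sub.card) + 1 := by
      rw [ct, Fm.sub]
      refine (card_insert_le _ _).trans ?_
      exact Nat.succ_le_succ card_biUnion_le
    have h2 := key t φs _ ih
    have e : N * (2 * (CF.and t φs).size) = N * (2 * ∑ j, (φs j).size) + 2 * N := by
      rw [CF.size]; ring
    rw [e]; omega
  | or t φs ih =>
    have h1 : (ct K (.or t φs)).sub.card ≤ (∑ j, (ct K (φs j)).sub.card) + 1 := by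
      rw [ct, Fm.sub]
      refine (card_insert_le _ _).trans ?_
      exact Nat.succ_le_succ card_biUnion_le
    have h2 := key t φs _ ih
    have e : N * (2 * (CF.or t φs).size) = N * (2 * ∑ j, (φs j).size) + 2 * N := by
      rw [CF.size]; ring
    rw [e]; omega
  | cnt S t φs ih =>
    have h1 : (ct K (.cnt S t φs)).sub.card ≤ 2 ^ w + 2 + 2 * t + ∑ j, (ct K (φs j)).sub.card := by
      rw [ct]
      exact card_gate (hw t φs) _ (fun j => le_rfl)
    have h2 := key t φs _ ih
    have e : N * (2 * (CF.cnt S t φs).size) = N * (2 * ∑ j, (φs j).size) + 2 * N := by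
      rw [CF.size]; ring
    have h3 : 2 * t ≤ N * t := Nat.mul_le_mul_right t hN2
    rw [e]; omega

lemma card_allSub_ct {w T : ℕ} (hw : ∀ t (Γ : Fin t → CF α), (K t Γ).card ≤ w)
    (L : Fin T → CF α) :
    (Pool.Agent.TH710.PHP.allSub (fun i => ct K (L i))).card ≤
      (2 ^ w + 2) * (2 * ∑ i, (L i).size) := by
  classical
  rw [Pool.Agent.TH710.PHP.allSub]
  refine card_biUnion_le.trans ?_
  rw [Finset.mul_sum, Finset.mul_sum]
  refine Finset.sum_le_sum (fun i _ => ?_)
  exact (Nat.le_add_right _ _).trans (card_sub_ct hw (L i))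

/-! ### inferences -/

lemma resp_ct {V : Fm α → Bool} {χ : CF α} (h : Pool.Agent.TH710.PHP.RespAt V (ct K χ)) :
    RespAt (fun ψ => V (ct K ψ)) χ := by
  cases χ with
  | var a => trivial
  | neg φ => exact h
  | and t φs => exact h
  | or t φs => exact h
  | cnt S t φs => trivial

lemma local_ct {c T : ℕ} {L : Fin T → CF α} {i : Fin T} {H : (CF α → Bool) → Prop}
    {H' : (Fm α → Bool) → Prop} (hH : ∀ V, H' V → H (fun ψ => V (ct K ψ)))
    (h : Local c L i H) : Pool.Agent.TH710.PHP.Local c (fun i => ct K (L i)) i H' := by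
  classical
  obtain ⟨P, Q, hP, hQ, hlt, hQL, h⟩ := h
  refine ⟨P, Q.image (ct K), hP, card_image_le.trans hQ, hlt, ?_, ?_⟩
  · intro χ hχ
    obtain ⟨χ', h1, rfl⟩ := mem_image.mp hχ
    exact allSub_ct (hQL h1)
  · intro V hV hPV hHV
    exact h (fun ψ => V (ct K ψ)) (fun χ hχ => resp_ct (hV _ (mem_image_of_mem _ hχ))) hPV
      (hH V hHV)

lemma inferred_ct {c T : ℕ} {L : Fin T → CF α} {i : Fin T} (h : Inferred c L i) :
    Pool.Agent.TH710.PHP.Inferred c (fun i => ct K (L i)) i := by
  rcases h with h | ⟨t, φs, h1, h2, h3⟩ | ⟨t, φs, h1, h2, h3⟩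
  · exact Or.inl (local_ct (fun _ _ => trivial) h)
  · refine Or.inr (Or.inl ⟨t, fun j => ct K (φs j), ?_, ?_, fun j => ?_⟩)
    · exact allSub_ct h1
    · exact local_ct (fun V hV => hV) h2
    · exact local_ct (fun V hV => hV) (h3 j)
  · refine Or.inr (Or.inr ⟨t, fun j => ct K (φs j), ?_, ?_, fun j => ?_⟩)
    · exact allSub_ct h1
    · exact local_ct (fun V hV => hV) h2
    · exact local_ct (fun V hV => hV) (h3 j)

lemma clause_ct {m n : ℕ} {K : Marking (Fin m × Fin n)} {φ : CF (Fin m × Fin n)}
    (h : IsClause φ) : Pool.Agent.TH710.PHP.IsClause (ct K φ) := by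
  obtain ⟨t, φs, rfl, h⟩ := h
  refine ⟨t, fun j => ct K (φs j), rfl, ?_⟩
  rcases h with ⟨i, hi⟩ | ⟨i, i', j, hne, ⟨l, hl⟩, l', hl'⟩
  · left
    refine ⟨i, fun j => ?_⟩
    obtain ⟨l, hl⟩ := hi j
    exact ⟨l, by simp only [hl, ct]⟩
  · right
    exact ⟨i, i', j, hne, ⟨l, by simp only [hl, ct]⟩, l', by simp only [hl', ct]⟩

end Pool.Agent.TH677.SG
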